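import Mathlib

/-!
# MP_9d0111_an: p-metric mean dimension equals sofic metric mean dimension

For every countable sofic group, every sofic approximation, every action by homeomorphisms on a
compact metrizable space and every `1 ≤ p ≤ ∞`, the `p`-metric mean dimension coincides with the
sofic metric mean dimension.

Idea: every dynamically generating pseudometric `ρ` dominates the dynamically generating
pseudometric `ρ'(x,y) = ∑ 2^{-k-1} |ρ(x,z_k) - ρ(y,z_k)|`, whose covering numbers have tame growth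
`log L(ε) = O(log(1/ε)^2)`; for tame pseudometrics the `p`- and `∞`-versions agree.
-/

open Filter Topology
open scoped ENNReal

namespace Pool.Agent.Results.MP_9d0111_an.PMetricEqualsMetric

/-- A sofic approximation `(σ i : Γ → Sym (Fin (d i)))`. -/
structure IsSoficApprox {Γ : Type*} [Group Γ] (d : ℕ → ℕ)
    (σ : ∀ i, Γ → Equiv.Perm (Fin (d i))) : Prop where
  dim : Tendsto d atTop atTop
  mul : ∀ s t : Γ, Tendsto (fun i =>
    ((Finset.univ.filter (fun j : Fin (d i) => σ i (s * t) j = σ i s (σ i t j))).card : ℝ)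
      / (d i : ℝ)) atTop (𝓝 1)
  free : ∀ s : Γ, s ≠ 1 → Tendsto (fun i =>
    ((Finset.univ.filter (fun j : Fin (d i) => σ i s j = j)).card : ℝ) / (d i : ℝ)) atTop (𝓝 0)

/-- `ρ` is a dynamically generating continuous pseudometric. -/
structure IsDynGen (Γ : Type*) {X : Type*} [Group Γ] [MulAction Γ X] [TopologicalSpace X]
    (ρ : X → X → ℝ) : Prop where
  cont : Continuous (fun q : X × X => ρ q.1 q.2)
  self : ∀ x, ρ x x = 0
  symm : ∀ x y, ρ x y = ρ y x
  tri : ∀ x y z, ρ x z ≤ ρ x y + ρ y z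
  gen : ∀ x y, x ≠ y → ∃ s : Γ, 0 < ρ (s • x) (s • y)

open Classical in
/-- The `p`-metric `ρ_p` on maps `{1,…,d} → X` (for `p = ∞` the maximum). -/
noncomputable def rhoP {X : Type*} (p : ℝ≥0∞) (ρ : X → X → ℝ) {d : ℕ} (φ ψ : Fin d → X) : ℝ :=
  if p = ∞ then ⨆ j, ρ (φ j) (ψ j)
  else ((1 / (d : ℝ)) * ∑ j, ρ (φ j) (ψ j) ^ p.toReal) ^ (1 / p.toReal)

/-- The set `Map(ρ, F, δ, τ)` of approximately equivariant maps. -/
def MapSet {Γ X : Type*} [Group Γ] [MulAction Γ X] (ρ : X → X → ℝ) (F : Finset Γ) (δ : ℝ)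
    {d : ℕ} (τ : Γ → Equiv.Perm (Fin d)) : Set (Fin d → X) :=
  {φ | ∀ s ∈ F, rhoP 2 ρ (fun j => φ (τ s j)) (fun j => s • φ j) ≤ δ}

/-- `N_ε(M, θ)`: the largest cardinality of an `ε`-separated subset of `M`. -/
noncomputable def sepNum {Y : Type*} (θ : Y → Y → ℝ) (ε : ℝ) (M : Set Y) : ℕ∞ :=
  ⨆ (S : Finset Y) (_ : (↑S : Set Y) ⊆ M ∧ ∀ a ∈ S, ∀ b ∈ S, a ≠ b → ε ≤ θ a b), (S.card : ℕ∞)

/-- `mdim_{Σ,p}(ρ)`; the logarithm takes values in `[-∞,∞]` with `log 0 = -∞`. -/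
noncomputable def mdimRho {Γ X : Type*} [Group Γ] [MulAction Γ X] (d : ℕ → ℕ)
    (σ : ∀ i, Γ → Equiv.Perm (Fin (d i))) (p : ℝ≥0∞) (ρ : X → X → ℝ) : EReal :=
  liminf (fun ε : ℝ => ⨅ (F : Finset Γ) (δ : ℝ) (_ : 0 < δ),
    limsup (fun i => ENNReal.log ((sepNum (rhoP p ρ) ε (MapSet ρ F δ (σ i)) : ℕ∞) : ℝ≥0∞)
      / (((d i : ℝ) * Real.log (1 / ε) : ℝ) : EReal)) atTop) (𝓝[>] 0)

/-- `mdim_{Σ,M,p}(X,Γ)`, the `p`-metric mean dimension; `p = ∞` is the sofic metric mean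
dimension. -/
noncomputable def metricMeanDim (Γ X : Type*) [Group Γ] [MulAction Γ X] [TopologicalSpace X]
    (d : ℕ → ℕ) (σ : ∀ i, Γ → Equiv.Perm (Fin (d i))) (p : ℝ≥0∞) : EReal :=
  ⨅ (ρ : X → X → ℝ) (_ : IsDynGen Γ ρ), mdimRho d σ p ρ

/-! ### Basic facts on `rhoP` -/

section basic

variable {X : Type*} {ρ : X → X → ℝ}

lemma IsDynGen.nonneg {Γ : Type*} [Group Γ] [MulAction Γ X] [TopologicalSpace X]
    (h : IsDynGen Γ ρ) (x y : X) : 0 ≤ ρ x y := by
  have h1 := h.tri x y x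
  rw [h.self, h.symm y x] at h1
  linarith

lemma rhoP_top {d : ℕ} (φ ψ : Fin d → X) : rhoP ∞ ρ φ ψ = ⨆ j, ρ (φ j) (ψ j) := by
  simp [rhoP]

lemma rhoP_of_ne {p : ℝ≥0∞} (hp : p ≠ ∞) {d : ℕ} (φ ψ : Fin d → X) :
    rhoP p ρ φ ψ = ((1 / (d : ℝ)) * ∑ j, ρ (φ j) (ψ j) ^ p.toReal) ^ (1 / p.toReal) := by
  simp [rhoP, hp]

lemma rhoP_symm (hs : ∀ x y, ρ x y = ρ y x) (p : ℝ≥0∞) {d : ℕ} (φ ψ : Fin d → X) :
    rhoP p ρ φ ψ = rhoP p ρ ψ φ := by
  unfold rhoP
  simp_rw [hs (φ _) (ψ _)]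

/-- Markov-type inequality: if `ρ_p(φ,ψ) ≤ a` then the sum of `p`-th powers is `≤ d a^p`. -/
lemma sum_le_of_rhoP (hn : ∀ x y, 0 ≤ ρ x y) {p : ℝ≥0∞} (hp1 : 1 ≤ p) (hp : p ≠ ∞) {d : ℕ}
    (hd : 0 < d) {φ ψ : Fin d → X} {a : ℝ} (h : rhoP p ρ φ ψ ≤ a) :
    ∑ j, ρ (φ j) (ψ j) ^ p.toReal ≤ d * a ^ p.toReal := by
  have hpr : 0 < p.toReal := ENNReal.toReal_pos (by positivity) hp
  rw [rhoP_of_ne hp] at h
  have hd' : (0:ℝ) < d := by exact_mod_cast hd
  have hs : 0 ≤ ∑ j, ρ (φ j) (ψ j) ^ p.toReal :=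
    Finset.sum_nonneg fun j _ => Real.rpow_nonneg (hn _ _) _
  have h0 : 0 ≤ (1 / (d : ℝ)) * ∑ j, ρ (φ j) (ψ j) ^ p.toReal := by positivity
  have h1 := Real.rpow_le_rpow (Real.rpow_nonneg h0 _) h hpr.le
  rw [← Real.rpow_mul h0, one_div_mul_cancel hpr.ne', Real.rpow_one] at h1
  calc ∑ j, ρ (φ j) (ψ j) ^ p.toReal
      = d * ((1 / (d : ℝ)) * ∑ j, ρ (φ j) (ψ j) ^ p.toReal) := by field_simp
    _ ≤ d * a ^ p.toReal := by gcongr

lemma rhoP_le_of_sum (hn : ∀ x y, 0 ≤ ρ x y) {p : ℝ≥0∞} (hp1 : 1 ≤ p) (hp : p ≠ ∞) {d : ℕ}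
    (hd : 0 < d) {φ ψ : Fin d → X} {a : ℝ} (ha : 0 ≤ a)
    (h : ∑ j, ρ (φ j) (ψ j) ^ p.toReal ≤ d * a ^ p.toReal) : rhoP p ρ φ ψ ≤ a := by
  have hpr : 0 < p.toReal := ENNReal.toReal_pos (by positivity) hp
  rw [rhoP_of_ne hp]
  have hd' : (0:ℝ) < d := by exact_mod_cast hd
  have hs : 0 ≤ ∑ j, ρ (φ j) (ψ j) ^ p.toReal :=
    Finset.sum_nonneg fun j _ => Real.rpow_nonneg (hn _ _) _
  have h0 : 0 ≤ (1 / (d : ℝ)) * ∑ j, ρ (φ j) (ψ j) ^ p.toReal := by positivity
  have h1 : (1 / (d : ℝ)) * ∑ j, ρ (φ j) (ψ j) ^ p.toReal ≤ a ^ p.toReal := by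
    calc (1 / (d : ℝ)) * ∑ j, ρ (φ j) (ψ j) ^ p.toReal
        ≤ (1 / (d : ℝ)) * (d * a ^ p.toReal) := by gcongr
      _ = a ^ p.toReal := by field_simp
  have h2 := Real.rpow_le_rpow h0 h1 (z := 1 / p.toReal) (by positivity)
  rwa [← Real.rpow_mul ha, mul_one_div_cancel hpr.ne', Real.rpow_one] at h2

/-- `ρ_p ≤ ρ_∞`. -/
lemma rhoP_le_top (hn : ∀ x y, 0 ≤ ρ x y) {p : ℝ≥0∞} (hp1 : 1 ≤ p) {d : ℕ} (hd : 0 < d)
    (φ ψ : Fin d → X) : rhoP p ρ φ ψ ≤ rhoP ∞ ρ φ ψ := by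
  by_cases hp : p = ∞
  · rw [hp]
  have : Nonempty (Fin d) := ⟨⟨0, hd⟩⟩
  have hb : ∀ j, ρ (φ j) (ψ j) ≤ rhoP ∞ ρ φ ψ := fun j => by
    rw [rhoP_top]
    exact le_ciSup (Set.finite_range fun j => ρ (φ j) (ψ j)).bddAbove j
  refine rhoP_le_of_sum hn hp1 hp hd ((hn _ _).trans (hb ⟨0, hd⟩)) ?_
  calc ∑ j, ρ (φ j) (ψ j) ^ p.toReal ≤ ∑ j : Fin d, rhoP ∞ ρ φ ψ ^ p.toReal :=
        Finset.sum_le_sum fun j _ =>
          Real.rpow_le_rpow (hn _ _) (hb j) ENNReal.toReal_nonneg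
    _ = d * rhoP ∞ ρ φ ψ ^ p.toReal := by simp

lemma rhoP_mono {ρ' : X → X → ℝ} (hn : ∀ x y, 0 ≤ ρ' x y) (hle : ∀ x y, ρ' x y ≤ ρ x y)
    {p : ℝ≥0∞} (hp : p ≠ ∞) {d : ℕ} (φ ψ : Fin d → X) : rhoP p ρ' φ ψ ≤ rhoP p ρ φ ψ := by
  rw [rhoP_of_ne hp, rhoP_of_ne hp]
  have h1 : ∑ j, ρ' (φ j) (ψ j) ^ p.toReal ≤ ∑ j, ρ (φ j) (ψ j) ^ p.toReal :=
    Finset.sum_le_sum fun j _ => Real.rpow_le_rpow (hn _ _) (hle _ _) ENNReal.toReal_nonneg
  have h0 : 0 ≤ ∑ j, ρ' (φ j) (ψ j) ^ p.toReal :=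
    Finset.sum_nonneg fun j _ => Real.rpow_nonneg (hn _ _) _
  refine Real.rpow_le_rpow (by positivity) (by gcongr) (by positivity)

lemma sepNum_mono {Y : Type*} {θ θ' : Y → Y → ℝ} {ε : ℝ} {M M' : Set Y}
    (hθ : ∀ a b, θ a b ≤ θ' a b) (hM : M ⊆ M') : sepNum θ ε M ≤ sepNum θ' ε M' := by
  refine iSup₂_le fun S hS => ?_
  exact le_iSup₂_of_le S ⟨hS.1.trans hM, fun a ha b hb hab => (hS.2 a ha b hb hab).trans (hθ a b)⟩
    le_rfl

end basic

/-! ### Counting partial cell assignments -/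

/-- The number of functions `Fin d → Option (Fin L)` with support of size `≤ η d`. -/
lemma count_le {d L : ℕ} (hL : 1 ≤ L) {η : ℝ} (h0 : 0 < η) (h1 : η ≤ 1)
    (G : Finset (Fin d → Option (Fin L)))
    (hG : ∀ g ∈ G, ((Finset.univ.filter (fun j => g j ≠ none)).card : ℝ) ≤ η * d) :
    (G.card : ℝ) ≤ Real.exp (d * (η * (1 + Real.log L + Real.log (1 / η)))) := by
  set lam : ℝ := L / η with hlam
  have hL' : (1:ℝ) ≤ L := by exact_mod_cast hL
  have hlam1 : 1 ≤ lam := by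
    rw [hlam, le_div_iff₀ h0]; linarith
  have hlam0 : 0 < lam := by linarith
  -- weight
  set w : Option (Fin L) → ℝ := fun o => if o = none then 1 else lam⁻¹ with hw
  have hw0 : ∀ o, 0 ≤ w o := fun o => by
    simp only [hw]; split_ifs <;> positivity
  have hprod : ∀ g : Fin d → Option (Fin L), ∏ j, w (g j)
      = (lam⁻¹) ^ (Finset.univ.filter (fun j => g j ≠ none)).card := by
    intro g
    rw [← Finset.prod_const, Finset.prod_filter]
    refine Finset.prod_congr rfl fun j _ => ?_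
    by_cases h : g j = none <;> simp [hw, h]
  have hone : ∀ g ∈ G, 1 ≤ lam ^ (η * d) * ∏ j, w (g j) := by
    intro g hg
    rw [hprod, inv_pow, ← Real.rpow_natCast, ← Real.rpow_neg hlam0.le,
      ← Real.rpow_add hlam0]
    exact Real.one_le_rpow hlam1 (by linarith [hG g hg])
  have hsum : ∑ o : Option (Fin L), w o = 1 + η := by
    rw [Fintype.sum_option]
    simp only [hw, if_true, reduceCtorEq, if_false, Finset.sum_const, Finset.card_univ,
      Fintype.card_fin, nsmul_eq_mul]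
    rw [hlam]
    field_simp
  have key : (G.card : ℝ) ≤ lam ^ (η * d) * (1 + η) ^ d := by
    calc (G.card : ℝ) = ∑ g ∈ G, (1:ℝ) := by simp
      _ ≤ ∑ g ∈ G, lam ^ (η * d) * ∏ j, w (g j) := Finset.sum_le_sum hone
      _ ≤ ∑ g : Fin d → Option (Fin L), lam ^ (η * d) * ∏ j, w (g j) := by
          refine Finset.sum_le_sum_of_subset_of_nonneg (Finset.subset_univ _) fun g _ _ => ?_
          have := Finset.prod_nonneg (s := Finset.univ) fun j _ => hw0 (g j)
          positivity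
      _ = lam ^ (η * d) * ∏ j : Fin d, ∑ o : Option (Fin L), w o := by
          rw [← Finset.mul_sum, Finset.prod_univ_sum, Fintype.piFinset_univ]
      _ = lam ^ (η * d) * (1 + η) ^ d := by rw [hsum]; simp
  refine key.trans ?_
  have e1 : lam ^ (η * d) = Real.exp (Real.log lam * (η * d)) := by
    rw [Real.rpow_def_of_pos hlam0]
  have e2 : (1 + η) ^ d ≤ Real.exp (η * d) := by
    calc (1 + η) ^ d ≤ (Real.exp η) ^ d := by
          have := Real.add_one_le_exp η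
          gcongr; linarith
      _ = Real.exp (η * d) := by rw [← Real.exp_nat_mul]; ring_nf
  have e3 : Real.log lam = Real.log L + Real.log (1 / η) := by
    rw [hlam, div_eq_mul_one_div, Real.log_mul (by positivity) (by positivity)]
  calc lam ^ (η * d) * (1 + η) ^ d ≤ Real.exp (Real.log lam * (η * d)) * Real.exp (η * d) := by
        rw [e1]; gcongr
    _ = Real.exp (d * (η * (1 + Real.log L + Real.log (1 / η)))) := by
        rw [← Real.exp_add, e3]; ring_nf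

/-- The main comparison of packing numbers. -/
lemma packing_le {X : Type*} {ρ : X → X → ℝ} (hz : ∀ x, ρ x x = 0) (hn : ∀ x y, 0 ≤ ρ x y) (hs : ∀ x y, ρ x y = ρ y x)
    (ht : ∀ x y z, ρ x z ≤ ρ x y + ρ y z) {p : ℝ≥0∞} (hp1 : 1 ≤ p) (hp : p ≠ ∞) {d : ℕ}
    (hd : 0 < d) {M : Set (Fin d → X)} {η ε : ℝ} (hη0 : 0 < η) (hη1 : η ≤ 1) (hε : 0 < ε)
    {L : ℕ} (hL : 1 ≤ L) (cell : X → Fin L) (hcell : ∀ x y, cell x = cell y → ρ x y < ε)
    {K : ℝ} (hS : ∀ S : Finset (Fin d → X), (↑S : Set (Fin d → X)) ⊆ M →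
      (∀ a ∈ S, ∀ b ∈ S, a ≠ b → η * ε / 4 ≤ rhoP p ρ a b) → (S.card : ℝ) ≤ K)
    (T : Finset (Fin d → X)) (hTM : (↑T : Set (Fin d → X)) ⊆ M)
    (hT : ∀ a ∈ T, ∀ b ∈ T, a ≠ b → ε ≤ rhoP ∞ ρ a b) :
    (T.card : ℝ) ≤ K * Real.exp (d * (η * (1 + Real.log L + Real.log (1 / η)))) := by
  classical
  -- a separated set of maximal cardinality
  obtain ⟨S, hSM, hSsep, hSmax⟩ : ∃ S : Finset (Fin d → X), (↑S : Set (Fin d → X)) ⊆ M ∧
      (∀ a ∈ S, ∀ b ∈ S, a ≠ b → η * ε / 4 ≤ rhoP p ρ a b) ∧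
      ∀ S' : Finset (Fin d → X), (↑S' : Set (Fin d → X)) ⊆ M →
        (∀ a ∈ S', ∀ b ∈ S', a ≠ b → η * ε / 4 ≤ rhoP p ρ a b) → S'.card ≤ S.card := by
    let P : ℕ → Prop := fun n => ∃ S : Finset (Fin d → X), (↑S : Set (Fin d → X)) ⊆ M ∧
      (∀ a ∈ S, ∀ b ∈ S, a ≠ b → η * ε / 4 ≤ rhoP p ρ a b) ∧ S.card = n
    have hP0 : P 0 := ⟨∅, by simp, by simp, rfl⟩
    have hb : ∀ n, P n → n ≤ ⌊K⌋₊ := by
      rintro n ⟨S, h1, h2, rfl⟩
      exact Nat.le_floor (hS S h1 h2)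
    have hspec := Nat.findGreatest_spec (P := P) (Nat.zero_le ⌊K⌋₊) hP0
    obtain ⟨S, h1, h2, h3⟩ := hspec
    refine ⟨S, h1, h2, fun S' h1' h2' => ?_⟩
    rw [h3]
    exact Nat.le_findGreatest (hb _ ⟨S', h1', h2', rfl⟩) ⟨S', h1', h2', rfl⟩
  have hself : ∀ a b : Fin d → X, rhoP p ρ a b = rhoP p ρ b a := rhoP_symm hs p
  -- nearest point in `S`
  have hnear : ∀ φ ∈ M, ∃ ψ ∈ S, rhoP p ρ φ ψ ≤ η * ε / 4 := by
    intro φ hφ
    by_contra hcon
    push Not at hcon
    have hφS : φ ∉ S := by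
      intro h
      have h1 := hcon φ h
      have h2 : rhoP p ρ φ φ ≤ η * ε / 4 := by
        refine rhoP_le_of_sum hn hp1 hp hd (by positivity) ?_
        have hpr : 0 < p.toReal := ENNReal.toReal_pos (by positivity) hp
        simp only [hz, Real.zero_rpow hpr.ne', Finset.sum_const_zero]
        positivity
      linarith
    have h1 := hSmax (insert φ S) (by
      intro x hx
      simp only [Finset.coe_insert, Set.mem_insert_iff, Finset.mem_coe] at hx
      rcases hx with rfl | hx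
      · exact hφ
      · exact hSM hx) (by
      intro a ha b hb hab
      rw [Finset.mem_insert] at ha hb
      rcases ha with rfl | ha <;> rcases hb with rfl | hb
      · exact absurd rfl hab
      · exact (hcon b hb).le
      · rw [hself]; exact (hcon a ha).le
      · exact hSsep a ha b hb hab)
    rw [Finset.card_insert_of_notMem hφS] at h1
    omega
  choose! near hnearS hnear using hnear
  -- encode
  let code : (Fin d → X) → (Fin d → Option (Fin L)) := fun φ j =>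
    if ε / 4 ≤ ρ (φ j) (near φ j) then some (cell (φ j)) else none
  have hpr : 1 ≤ p.toReal := by
    rw [← ENNReal.toReal_one]
    exact ENNReal.toReal_mono hp hp1
  have hpr0 : 0 < p.toReal := by linarith
  have hd' : (0:ℝ) < d := by exact_mod_cast hd
  have hsupp : ∀ φ ∈ M, ((Finset.univ.filter (fun j => code φ j ≠ none)).card : ℝ) ≤ η * d := by
    intro φ hφ
    have h1 := sum_le_of_rhoP hn hp1 hp hd (hnear φ hφ)
    have h2 : ((Finset.univ.filter (fun j => code φ j ≠ none)).card : ℝ) * (ε / 4) ^ p.toReal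
        ≤ ∑ j, ρ (φ j) (near φ j) ^ p.toReal := by
      calc ((Finset.univ.filter (fun j => code φ j ≠ none)).card : ℝ) * (ε / 4) ^ p.toReal
          = ∑ j ∈ Finset.univ.filter (fun j => code φ j ≠ none), (ε / 4) ^ p.toReal := by
            simp
        _ ≤ ∑ j ∈ Finset.univ.filter (fun j => code φ j ≠ none),
              ρ (φ j) (near φ j) ^ p.toReal := by
            refine Finset.sum_le_sum fun j hj => ?_
            have hj' : ε / 4 ≤ ρ (φ j) (near φ j) := by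
              by_contra hcon
              simp [code, hcon] at hj
            exact Real.rpow_le_rpow (by positivity) hj' hpr0.le
        _ ≤ ∑ j, ρ (φ j) (near φ j) ^ p.toReal :=
            Finset.sum_le_sum_of_subset_of_nonneg (Finset.filter_subset _ _)
              fun j _ _ => Real.rpow_nonneg (hn _ _) _
    have h3 : (η * ε / 4) ^ p.toReal = η ^ p.toReal * (ε / 4) ^ p.toReal := by
      rw [← Real.mul_rpow hη0.le (by positivity)]; ring_nf
    have h4 : η ^ p.toReal ≤ η := by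
      calc η ^ p.toReal ≤ η ^ (1:ℝ) := Real.rpow_le_rpow_of_exponent_ge hη0 hη1 hpr
        _ = η := Real.rpow_one _
    have h5 : 0 < (ε / 4) ^ p.toReal := by positivity
    have h6 : ((Finset.univ.filter (fun j => code φ j ≠ none)).card : ℝ) * (ε / 4) ^ p.toReal
        ≤ (η * d) * (ε / 4) ^ p.toReal := by
      calc _ ≤ _ := h2.trans h1
        _ = (η ^ p.toReal * d) * (ε / 4) ^ p.toReal := by rw [h3]; ring
        _ ≤ (η * d) * (ε / 4) ^ p.toReal := by gcongr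
    exact le_of_mul_le_mul_right h6 h5
  have hcard : T.card ≤ (S ×ˢ T.image code).card := by
    refine Finset.card_le_card_of_injOn (fun φ => (near φ, code φ)) ?_ ?_
    · intro φ hφ
      simp only [Finset.coe_product, Set.mem_prod, Finset.mem_coe]
      exact ⟨hnearS φ (hTM hφ), Finset.mem_image_of_mem _ hφ⟩
    · intro φ₁ h₁ φ₂ h₂ h12
      simp only [Prod.mk.injEq] at h12
      by_contra hne
      have hsep := hT φ₁ h₁ φ₂ h₂ hne
      have : Nonempty (Fin d) := ⟨⟨0, hd⟩⟩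
      rw [rhoP_top] at hsep
      obtain ⟨j, hj⟩ := exists_eq_ciSup_of_finite (f := fun j => ρ (φ₁ j) (φ₂ j))
      rw [← hj] at hsep
      have hc := congrFun h12.2 j
      have hnr := h12.1
      simp only [code] at hc
      by_cases c1 : ε / 4 ≤ ρ (φ₁ j) (near φ₁ j) <;> by_cases c2 : ε / 4 ≤ ρ (φ₂ j) (near φ₂ j)
      · rw [if_pos c1, if_pos c2, Option.some.injEq] at hc
        have := hcell _ _ hc
        linarith
      · rw [if_pos c1, if_neg c2] at hc
        exact absurd hc (by simp)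
      · rw [if_neg c1, if_pos c2] at hc
        exact absurd hc (by simp)
      · push Not at c1 c2
        have h3 := ht (φ₁ j) (near φ₁ j) (φ₂ j)
        rw [hs (near φ₁ j) (φ₂ j)] at h3
        rw [← hnr] at c2
        linarith
  have hG : ((T.image code).card : ℝ)
      ≤ Real.exp (d * (η * (1 + Real.log L + Real.log (1 / η)))) := by
    refine count_le hL hη0 hη1 _ fun g hg => ?_
    obtain ⟨φ, hφ, rfl⟩ := Finset.mem_image.1 hg
    exact hsupp φ (hTM hφ)
  have hSK : (S.card : ℝ) ≤ K := hS S hSM hSsep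
  calc (T.card : ℝ) ≤ ((S ×ˢ T.image code).card : ℝ) := by exact_mod_cast hcard
    _ = S.card * (T.image code).card := by rw [Finset.card_product]; push_cast; ring
    _ ≤ K * Real.exp (d * (η * (1 + Real.log L + Real.log (1 / η)))) := by
        have : (0:ℝ) ≤ S.card := by positivity
        exact mul_le_mul hSK hG (by positivity) (this.trans hSK)

/-! ### The tame modification of a pseudometric -/

section tame

variable {X : Type*}

/-- `ρ'(x,y) = ∑_k 2^{-k-1} |ρ(x,z_k) - ρ(y,z_k)|`. -/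
noncomputable def tame (ρ : X → X → ℝ) (z : ℕ → X) (x y : X) : ℝ :=
  ∑' k, (1 / 2 : ℝ) ^ (k + 1) * |ρ x (z k) - ρ y (z k)|

variable {ρ : X → X → ℝ} {z : ℕ → X}

lemma summable_half : Summable (fun k : ℕ => (1 / 2 : ℝ) ^ (k + 1)) :=
  (summable_nat_add_iff 1).2 (summable_geometric_two)

lemma tsum_half : ∑' k : ℕ, (1 / 2 : ℝ) ^ (k + 1) = 1 := by
  have h := summable_geometric_two.sum_add_tsum_nat_add 1
  simp only [Finset.range_one, Finset.sum_singleton, pow_zero, tsum_geometric_two] at h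
  linarith

lemma abs_sub_le_of (hs : ∀ x y, ρ x y = ρ y x) (ht : ∀ x y z, ρ x z ≤ ρ x y + ρ y z) (x y w : X) :
    |ρ x w - ρ y w| ≤ ρ x y := by
  rw [abs_le]
  constructor
  · have := ht y x w
    rw [hs y x] at this
    linarith
  · have := ht x y w
    linarith

lemma tame_summable (hs : ∀ x y, ρ x y = ρ y x) (ht : ∀ x y z, ρ x z ≤ ρ x y + ρ y z) (x y : X) :
    Summable (fun k => (1 / 2 : ℝ) ^ (k + 1) * |ρ x (z k) - ρ y (z k)|) := by
  refine Summable.of_nonneg_of_le (fun k => by positivity) (fun k => ?_)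
    (summable_half.mul_right (ρ x y))
  gcongr
  exact abs_sub_le_of hs ht _ _ _

lemma tame_nonneg (x y : X) : 0 ≤ tame ρ z x y :=
  tsum_nonneg fun k => by positivity

lemma tame_le (hs : ∀ x y, ρ x y = ρ y x) (ht : ∀ x y z, ρ x z ≤ ρ x y + ρ y z) (x y : X) :
    tame ρ z x y ≤ ρ x y := by
  calc tame ρ z x y ≤ ∑' k : ℕ, (1 / 2 : ℝ) ^ (k + 1) * ρ x y := by
        refine Summable.tsum_le_tsum (fun k => ?_) (tame_summable hs ht x y)
          (summable_half.mul_right (ρ x y))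
        gcongr
        exact abs_sub_le_of hs ht _ _ _
    _ = ρ x y := by rw [tsum_mul_right, tsum_half, one_mul]

lemma tame_self (x : X) : tame ρ z x x = 0 := by
  simp [tame]

lemma tame_symm (x y : X) : tame ρ z x y = tame ρ z y x := by
  unfold tame
  simp_rw [abs_sub_comm (ρ x (z _)) (ρ y (z _))]

lemma tame_tri (hs : ∀ x y, ρ x y = ρ y x) (ht : ∀ x y z, ρ x z ≤ ρ x y + ρ y z) (x y w : X) :
    tame ρ z x w ≤ tame ρ z x y + tame ρ z y w := by
  unfold tame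
  rw [← (tame_summable hs ht x y).tsum_add (tame_summable hs ht y w)]
  refine Summable.tsum_le_tsum (fun k => ?_) (tame_summable hs ht x w)
    ((tame_summable hs ht x y).add (tame_summable hs ht y w))
  rw [← mul_add]
  gcongr
  exact abs_sub_le _ _ _

lemma tame_continuous [TopologicalSpace X] (hc : Continuous (fun q : X × X => ρ q.1 q.2)) {D : ℝ}
    (hs : ∀ x y, ρ x y = ρ y x) (ht : ∀ x y z, ρ x z ≤ ρ x y + ρ y z)
    (hD : ∀ x y, ρ x y ≤ D) : Continuous (fun q : X × X => tame ρ z q.1 q.2) := by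
  have hc1 : ∀ k, Continuous fun x => ρ x (z k) := fun k =>
    hc.comp (continuous_id.prodMk continuous_const)
  refine continuous_tsum (u := fun k => (1 / 2 : ℝ) ^ (k + 1) * D) (fun k => ?_)
    (summable_half.mul_right D) (fun k q => ?_)
  · exact continuous_const.mul
      (((hc1 k).comp continuous_fst).sub ((hc1 k).comp continuous_snd)).abs
  · rw [Real.norm_of_nonneg (by positivity)]
    gcongr
    exact (abs_sub_le_of hs ht _ _ _).trans (hD _ _)

lemma eq_zero_of_tame [TopologicalSpace X] (hc : Continuous (fun q : X × X => ρ q.1 q.2))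
    (hz : ∀ x, ρ x x = 0)
    (hs : ∀ x y, ρ x y = ρ y x) (ht : ∀ x y z, ρ x z ≤ ρ x y + ρ y z) (hd : DenseRange z)
    {x y : X} (h : tame ρ z x y = 0) : ρ x y = 0 := by
  have h1 : ∀ k, ρ x (z k) = ρ y (z k) := by
    intro k
    have h2 := ((tame_summable (z := z) hs ht x y).hasSum_iff.2 h)
    rw [hasSum_zero_iff_of_nonneg (fun k => by positivity)] at h2
    have h3 := congrFun h2 k
    simp only [Pi.zero_apply, mul_eq_zero, abs_eq_zero] at h3
    rcases h3 with h3 | h3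
    · exact absurd h3 (by positivity)
    · linarith
  have hx : ∀ w : X, Continuous fun v => ρ w v := fun w =>
    hc.comp (continuous_const.prodMk continuous_id)
  have h4 : (fun v => ρ x v) = fun v => ρ y v :=
    hd.equalizer (hx x) (hx y) (funext h1)
  have h5 := congrFun h4 y
  simp only [hz] at h5
  exact h5

lemma isDynGen_tame {Γ : Type*} [Group Γ] [MulAction Γ X] [TopologicalSpace X]
    (h : IsDynGen Γ ρ) {D : ℝ} (hD : ∀ x y, ρ x y ≤ D) (hd : DenseRange z) :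
    IsDynGen Γ (tame ρ z) where
  cont := tame_continuous h.cont h.symm h.tri hD
  self := tame_self
  symm := tame_symm
  tri := tame_tri h.symm h.tri
  gen x y hxy := by
    obtain ⟨s, hs⟩ := h.gen x y hxy
    refine ⟨s, lt_of_le_of_ne (tame_nonneg _ _) fun h0 => ?_⟩
    exact hs.ne' (eq_zero_of_tame h.cont h.self h.symm h.tri hd h0.symm)

lemma exists_modulus [TopologicalSpace X] [CompactSpace X]
    (hc : Continuous (fun q : X × X => ρ q.1 q.2)) {D : ℝ} (hz : ∀ x, ρ x x = 0)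
    (hs : ∀ x y, ρ x y = ρ y x) (ht : ∀ x y z, ρ x z ≤ ρ x y + ρ y z)
    (hD : ∀ x y, ρ x y ≤ D) (hd : DenseRange z) {η : ℝ} (hη : 0 < η) :
    ∃ κ > 0, ∀ x y, tame ρ z x y < κ → ρ x y < η := by
  have hcl : IsCompact {q : X × X | η ≤ ρ q.1 q.2} :=
    (isClosed_le continuous_const hc).isCompact
  by_cases hne : {q : X × X | η ≤ ρ q.1 q.2}.Nonempty
  · obtain ⟨q, hq, hmin⟩ := hcl.exists_isMinOn hne
      (tame_continuous (z := z) hc hs ht hD).continuousOn
    refine ⟨tame ρ z q.1 q.2, ?_, fun x y hxy => ?_⟩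
    · refine lt_of_le_of_ne (tame_nonneg _ _) fun h0 => ?_
      have := eq_zero_of_tame hc hz hs ht hd h0.symm
      have hq' : η ≤ ρ q.1 q.2 := hq
      linarith
    · by_contra hcon
      push Not at hcon
      have := hmin (a := (x, y)) hcon
      simp only [Set.mem_ofPred_eq] at this
      linarith
  · refine ⟨1, one_pos, fun x y _ => ?_⟩
    by_contra hcon
    push Not at hcon
    exact hne ⟨(x, y), hcon⟩

/-- Partial sums and tails. -/
lemma tame_lt_of_close (hs : ∀ x y, ρ x y = ρ y x) (ht : ∀ x y z, ρ x z ≤ ρ x y + ρ y z)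
    {D : ℝ} (hD : ∀ x y, ρ x y ≤ D) {n : ℕ} {ε : ℝ} (hε : 0 < ε)
    (hn : (1 / 2 : ℝ) ^ n * D < ε / 2) {x y : X}
    (hxy : ∀ k < n, |ρ x (z k) - ρ y (z k)| ≤ ε / 2) : tame ρ z x y < ε := by
  have h1 := (tame_summable (z := z) hs ht x y).sum_add_tsum_nat_add n
  unfold tame
  rw [← h1]
  have h2 : ∑ k ∈ Finset.range n, (1 / 2 : ℝ) ^ (k + 1) * |ρ x (z k) - ρ y (z k)| ≤ ε / 2 := by
    calc ∑ k ∈ Finset.range n, (1 / 2 : ℝ) ^ (k + 1) * |ρ x (z k) - ρ y (z k)|
        ≤ ∑ k ∈ Finset.range n, (1 / 2 : ℝ) ^ (k + 1) * (ε / 2) := by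
          refine Finset.sum_le_sum fun k hk => ?_
          gcongr
          exact hxy k (Finset.mem_range.1 hk)
      _ = (∑ k ∈ Finset.range n, (1 / 2 : ℝ) ^ (k + 1)) * (ε / 2) := by
          rw [Finset.sum_mul]
      _ ≤ 1 * (ε / 2) := by
          gcongr
          exact (summable_half.sum_le_tsum _ fun k _ => by positivity).trans tsum_half.le
      _ = ε / 2 := one_mul _
  have h3 : ∑' k, (1 / 2 : ℝ) ^ (k + n + 1) * |ρ x (z (k + n)) - ρ y (z (k + n))|
      ≤ (1 / 2 : ℝ) ^ n * D := by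
    calc ∑' k, (1 / 2 : ℝ) ^ (k + n + 1) * |ρ x (z (k + n)) - ρ y (z (k + n))|
        ≤ ∑' k : ℕ, (1 / 2 : ℝ) ^ (k + 1) * ((1 / 2 : ℝ) ^ n * D) := by
          refine Summable.tsum_le_tsum (fun k => ?_)
            ((summable_nat_add_iff n).2 (tame_summable (z := z) hs ht x y))
            (summable_half.mul_right _)
          calc (1 / 2 : ℝ) ^ (k + n + 1) * |ρ x (z (k + n)) - ρ y (z (k + n))|
              ≤ (1 / 2 : ℝ) ^ (k + n + 1) * D := by
                gcongr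
                exact (abs_sub_le_of hs ht _ _ _).trans (hD _ _)
            _ = (1 / 2 : ℝ) ^ (k + 1) * ((1 / 2 : ℝ) ^ n * D) := by ring
      _ = (1 / 2 : ℝ) ^ n * D := by rw [tsum_mul_right, tsum_half, one_mul]
  linarith

/-- Covering numbers of the tame modification grow like `exp(O(log(1/ε)^2))`. -/
lemma exists_cells [Nonempty X] (hs : ∀ x y, ρ x y = ρ y x)
    (ht : ∀ x y z, ρ x z ≤ ρ x y + ρ y z) (hn : ∀ x y, 0 ≤ ρ x y)
    {D : ℝ} (hD : ∀ x y, ρ x y ≤ D) :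
    ∃ C : ℝ, 0 ≤ C ∧ ∀ u : ℝ, 1 ≤ u → ∃ L : ℕ, 1 ≤ L ∧ ∃ cell : X → Fin L,
      (∀ x y, cell x = cell y → tame ρ z x y < Real.exp (-u)) ∧ Real.log L ≤ C * u ^ 2 := by
  have hD0 : 0 ≤ D := by
    obtain ⟨x⟩ := ‹Nonempty X›
    exact (hn x x).trans (hD x x)
  obtain ⟨m, hm⟩ : ∃ m : ℕ, (1 / 2 : ℝ) ^ m * D < 1 / 2 := by
    obtain ⟨m, hm⟩ := exists_pow_lt_of_lt_one (show (0:ℝ) < 1 / 2 / (D + 1) by positivity)
      (show (1 / 2 : ℝ) < 1 by norm_num)
    refine ⟨m, ?_⟩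
    rw [lt_div_iff₀ (by positivity)] at hm
    have : (0:ℝ) < (1 / 2) ^ m := by positivity
    nlinarith
  refine ⟨(3 + m) * (1 + Real.log (2 * D + 1)), ?_, fun u hu => ?_⟩
  · have := Real.log_nonneg (show (1:ℝ) ≤ 2 * D + 1 by linarith)
    positivity
  set n : ℕ := ⌈2 * u⌉₊ + m with hndef
  set R : ℝ := 2 * Real.exp u with hR
  have hR0 : 0 < R := by positivity
  have hnn : (1 / 2 : ℝ) ^ n * D < Real.exp (-u) / 2 := by
    have h1 : (1 / 2 : ℝ) ^ ⌈2 * u⌉₊ ≤ Real.exp (-u) := by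
      have h2 : (1 / 2 : ℝ) = Real.exp (-Real.log 2) := by
        rw [Real.exp_neg, Real.exp_log (by norm_num)]; norm_num
      rw [h2, ← Real.exp_nat_mul]
      apply Real.exp_le_exp.2
      have h3 : 2 * u ≤ ⌈2 * u⌉₊ := Nat.le_ceil _
      have h4 : (1 / 2 : ℝ) < Real.log 2 := by
        have := Real.log_two_gt_d9; linarith
      nlinarith
    rw [hndef, pow_add]
    have h5 : (0:ℝ) ≤ (1 / 2) ^ m * D := by positivity
    calc (1 / 2 : ℝ) ^ ⌈2 * u⌉₊ * (1 / 2) ^ m * D = (1 / 2 : ℝ) ^ ⌈2 * u⌉₊ * ((1 / 2) ^ m * D) := by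
          ring
      _ ≤ Real.exp (-u) * ((1 / 2) ^ m * D) := by gcongr
      _ < Real.exp (-u) * (1 / 2) := by gcongr
      _ = Real.exp (-u) / 2 := by ring
  set b : ℕ := ⌊R * D⌋₊ + 1 with hb
  have hcard : Fintype.card (Fin n → Fin b) = b ^ n := by simp
  let e : (Fin n → Fin b) ≃ Fin (b ^ n) := Fintype.equivFinOfCardEq hcard
  refine ⟨b ^ n, Nat.one_le_pow _ _ (by omega), fun x => e fun k =>
    ⟨⌊R * ρ x (z k)⌋₊, ?_⟩, ?_, ?_⟩
  · have : ⌊R * ρ x (z k)⌋₊ ≤ ⌊R * D⌋₊ := Nat.floor_le_floor (by gcongr; exact hD _ _)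
    omega
  · intro x y hxy
    have h1 := e.injective hxy
    refine tame_lt_of_close (n := n) hs ht hD (Real.exp_pos _) hnn fun k hk => ?_
    have h2 := congrFun h1 ⟨k, hk⟩
    simp only [Fin.mk.injEq] at h2
    have h3 := Nat.floor_le (show 0 ≤ R * ρ x (z k) by have := hn x (z k); positivity)
    have h4 := Nat.floor_le (show 0 ≤ R * ρ y (z k) by have := hn y (z k); positivity)
    have h5 := Nat.lt_floor_add_one (R * ρ x (z k))
    have h6 := Nat.lt_floor_add_one (R * ρ y (z k))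
    rw [h2] at h3 h5
    have h7 : |R * (ρ x (z k) - ρ y (z k))| ≤ 1 := by
      rw [abs_le]
      constructor <;> nlinarith
    rw [abs_mul, abs_of_pos hR0] at h7
    have h8 : |ρ x (z k) - ρ y (z k)| ≤ 1 / R := by
      rw [le_div_iff₀ hR0]; linarith
    have h9 : 1 / R = Real.exp (-u) / 2 := by
      rw [hR, Real.exp_neg]; field_simp
    linarith
  · have hlog0 := Real.log_nonneg (show (1:ℝ) ≤ 2 * D + 1 by linarith)
    have h1 : Real.log (b : ℝ) ≤ u + Real.log (2 * D + 1) := by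
      have h2 : (b : ℝ) ≤ Real.exp u * (2 * D + 1) := by
        have h3 : ((⌊R * D⌋₊ : ℕ) : ℝ) ≤ R * D := Nat.floor_le (by positivity)
        have h4 : 1 ≤ Real.exp u := Real.one_le_exp (by linarith)
        rw [hb]
        push_cast
        rw [hR] at h3 ⊢
        nlinarith
      calc Real.log (b : ℝ) ≤ Real.log (Real.exp u * (2 * D + 1)) :=
            Real.log_le_log (by rw [hb]; positivity) h2
        _ = u + Real.log (2 * D + 1) := by
            rw [Real.log_mul (Real.exp_ne_zero _) (by positivity), Real.log_exp]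
    have h3 : (n : ℝ) ≤ (3 + m) * u := by
      rw [hndef]
      push_cast
      have h4 := Nat.ceil_lt_add_one (show 0 ≤ 2 * u by linarith)
      have h5 : (0:ℝ) ≤ m := Nat.cast_nonneg m
      nlinarith
    have h6 : u + Real.log (2 * D + 1) ≤ (1 + Real.log (2 * D + 1)) * u := by nlinarith
    have hlogb : 0 ≤ Real.log (b : ℝ) := Real.log_natCast_nonneg _
    push_cast
    rw [Real.log_pow]
    have hm0 : (0:ℝ) ≤ m := Nat.cast_nonneg m
    calc (n : ℝ) * Real.log b ≤ ((3 + m) * u) * ((1 + Real.log (2 * D + 1)) * u) := by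
          apply mul_le_mul h3 (h1.trans h6) hlogb (by positivity)
      _ = (3 + m) * (1 + Real.log (2 * D + 1)) * u ^ 2 := by ring

/-- Inclusion of the sets of approximately equivariant maps. -/
lemma exists_mapSet_subset {Γ : Type*} [Group Γ] [MulAction Γ X] [TopologicalSpace X]
    [CompactSpace X] (h : IsDynGen Γ ρ) {D : ℝ} (hD : ∀ x y, ρ x y ≤ D) (hd : DenseRange z)
    (F : Finset Γ) {δ : ℝ} (hδ : 0 < δ) :
    ∃ δ' > 0, ∀ (d : ℕ), 0 < d → ∀ τ : Γ → Equiv.Perm (Fin d),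
      MapSet (tame ρ z) F δ' τ ⊆ MapSet ρ F δ τ := by
  obtain ⟨κ, hκ, hmod⟩ := exists_modulus h.cont h.self h.symm h.tri hD hd
    (show 0 < δ / 2 by positivity)
  set E : ℝ := max D 1 with hE
  have hE0 : 0 < E := lt_of_lt_of_le one_pos (le_max_right _ _)
  have hDE : ∀ x y, ρ x y ≤ E := fun x y => (hD x y).trans (le_max_left _ _)
  have h2top : (2 : ℝ≥0∞) ≠ ∞ := by simp
  refine ⟨κ * δ / (2 * E), by positivity, fun d hdpos τ φ hφ s hs => ?_⟩
  have h1 := sum_le_of_rhoP (fun x y => tame_nonneg (ρ := ρ) (z := z) x y) (p := 2)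
    (by norm_num) h2top hdpos (hφ s hs)
  refine rhoP_le_of_sum (fun x y => h.nonneg x y) (by norm_num) h2top hdpos hδ.le ?_
  have h2r : (2 : ℝ≥0∞).toReal = 2 := by simp
  simp only [h2r, Real.rpow_two] at h1 ⊢
  have hpt : ∀ x y, ρ x y ^ 2 ≤ (δ / 2) ^ 2 + (E / κ) ^ 2 * tame ρ z x y ^ 2 := by
    intro x y
    have h0 := h.nonneg x y
    by_cases hxy : tame ρ z x y < κ
    · have h3 := hmod x y hxy
      have h4 : 0 ≤ (E / κ) ^ 2 * tame ρ z x y ^ 2 := by positivity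
      nlinarith
    · push Not at hxy
      have h3 : E ≤ E / κ * tame ρ z x y := by
        rw [div_mul_eq_mul_div, le_div_iff₀ hκ]
        gcongr
      have h4 : ρ x y ^ 2 ≤ (E / κ * tame ρ z x y) ^ 2 := by
        gcongr
        exact (hDE x y).trans h3
      have h5 : 0 ≤ (δ / 2) ^ 2 := by positivity
      calc ρ x y ^ 2 ≤ (E / κ * tame ρ z x y) ^ 2 := h4
        _ ≤ (δ / 2) ^ 2 + (E / κ) ^ 2 * tame ρ z x y ^ 2 := by rw [mul_pow]; linarith
  have hd' : (0:ℝ) < d := by exact_mod_cast hdpos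
  calc ∑ j, ρ (φ (τ s j)) (s • φ j) ^ 2
      ≤ ∑ j, ((δ / 2) ^ 2 + (E / κ) ^ 2 * tame ρ z (φ (τ s j)) (s • φ j) ^ 2) :=
        Finset.sum_le_sum fun j _ => hpt _ _
    _ = d * (δ / 2) ^ 2 + (E / κ) ^ 2 * ∑ j, tame ρ z (φ (τ s j)) (s • φ j) ^ 2 := by
        rw [Finset.sum_add_distrib, ← Finset.mul_sum]
        simp
    _ ≤ d * (δ / 2) ^ 2 + (E / κ) ^ 2 * (d * (κ * δ / (2 * E)) ^ 2) := by gcongr
    _ = d * (δ ^ 2 / 2) := by field_simp; ring
    _ ≤ d * δ ^ 2 := by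
        have : 0 < δ ^ 2 := by positivity
        gcongr
        linarith

end tame

/-! ### The asymptotic comparison -/

lemma tendsto_error (C : ℝ) {s : ℝ} (hs : 0 < s) :
    Tendsto (fun u : ℝ => Real.exp (-(s * u)) * (1 + C * u ^ 2 + s * u)) atTop (𝓝 0) := by
  have hsu : Tendsto (fun u : ℝ => s * u) atTop atTop := tendsto_id.const_mul_atTop hs
  have h0 := (Real.tendsto_pow_mul_exp_neg_atTop_nhds_zero 0).comp hsu
  have h1 := (Real.tendsto_pow_mul_exp_neg_atTop_nhds_zero 1).comp hsu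
  have h2 := ((Real.tendsto_pow_mul_exp_neg_atTop_nhds_zero 2).comp hsu).const_mul (C / s ^ 2)
  have h3 := (h0.add h1).add h2
  simp only [add_zero, mul_zero] at h3
  refine h3.congr fun u => ?_
  simp only [Function.comp_apply, pow_zero, pow_one]
  field_simp
  ring

lemma eventually_ineq {t t₂ : ℝ} (C : ℝ) {s : ℝ} (hs : 0 < s) (hst : t * (1 + s) < t₂) :
    ∀ᶠ u : ℝ in atTop, t * ((1 + s) * u + Real.log 4)
      + Real.exp (-(s * u)) * (1 + C * u ^ 2 + s * u) ≤ t₂ * u := by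
  have h1 := (tendsto_error C hs).eventually (gt_mem_nhds (show (0:ℝ) < 1 by norm_num))
  have h2 : ∀ᶠ u : ℝ in atTop, (|t| * Real.log 4 + 1) / (t₂ - t * (1 + s)) ≤ u :=
    eventually_ge_atTop _
  filter_upwards [h1, h2] with u hu1 hu2
  rw [div_le_iff₀ (by linarith)] at hu2
  have h4 : 0 ≤ Real.log 4 := Real.log_nonneg (by norm_num)
  have h5 : t * Real.log 4 ≤ |t| * Real.log 4 := by gcongr; exact le_abs_self t
  nlinarith

lemma sepNum_le_iff {Y : Type*} {θ : Y → Y → ℝ} {ε : ℝ} {M : Set Y} {K : ℝ≥0∞} :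
    ((sepNum θ ε M : ℕ∞) : ℝ≥0∞) ≤ K ↔ ∀ S : Finset Y, (↑S : Set Y) ⊆ M →
      (∀ a ∈ S, ∀ b ∈ S, a ≠ b → ε ≤ θ a b) → (S.card : ℝ≥0∞) ≤ K := by
  constructor
  · intro h S h1 h2
    refine le_trans ?_ h
    have : (S.card : ℕ∞) ≤ sepNum θ ε M := le_iSup₂_of_le S ⟨h1, h2⟩ le_rfl
    calc (S.card : ℝ≥0∞) = ((S.card : ℕ∞) : ℝ≥0∞) := by simp
      _ ≤ _ := by exact_mod_cast this
  · intro h
    by_cases hK : K = ∞
    · rw [hK]; exact le_top
    have h1 : sepNum θ ε M ≤ (⌊K.toReal⌋₊ : ℕ∞) := by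
      refine iSup₂_le fun S hS => ?_
      have h2 := h S hS.1 hS.2
      have h3 : (S.card : ℝ) ≤ K.toReal := by
        have := ENNReal.toReal_mono hK h2
        simpa using this
      exact_mod_cast Nat.le_floor h3
    calc ((sepNum θ ε M : ℕ∞) : ℝ≥0∞) ≤ ((⌊K.toReal⌋₊ : ℕ∞) : ℝ≥0∞) := by exact_mod_cast h1
      _ = ((⌊K.toReal⌋₊ : ℕ) : ℝ≥0∞) := by simp
      _ = ENNReal.ofReal (⌊K.toReal⌋₊ : ℝ) := by simp
      _ ≤ ENNReal.ofReal K.toReal := ENNReal.ofReal_le_ofReal (Nat.floor_le ENNReal.toReal_nonneg)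
      _ = K := ENNReal.ofReal_toReal hK

section main

variable {Γ X : Type*} [Group Γ] [MulAction Γ X]

lemma mdimRho_mono {d : ℕ → ℕ} (hdim : Tendsto d atTop atTop)
    (σ : ∀ i, Γ → Equiv.Perm (Fin (d i))) {q q' : ℝ≥0∞} {ρ : X → X → ℝ}
    (h : ∀ i, 0 < d i → ∀ φ ψ : Fin (d i) → X, rhoP q ρ φ ψ ≤ rhoP q' ρ φ ψ) :
    mdimRho d σ q ρ ≤ mdimRho d σ q' ρ := by
  unfold mdimRho
  refine liminf_le_liminf ?_
  have h1 : ∀ᶠ ε : ℝ in 𝓝[>] 0, ε < 1 := eventually_nhdsWithin_of_eventually_nhds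
    (gt_mem_nhds one_pos)
  filter_upwards [h1, self_mem_nhdsWithin] with ε hε hε0
  have hε0' : 0 < ε := hε0
  refine iInf_mono fun F => iInf_mono fun δ => iInf_mono fun _ => ?_
  refine limsup_le_limsup ?_
  filter_upwards [hdim.eventually_gt_atTop 0] with i hi
  refine EReal.div_le_div_right_of_nonneg ?_ ?_
  · have : 0 ≤ Real.log (1 / ε) := Real.log_nonneg (by rw [le_div_iff₀ hε0']; linarith)
    exact_mod_cast (by positivity)
  · refine ENNReal.log_monotone ?_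
    exact_mod_cast sepNum_mono (h i hi) subset_rfl

/-- The key comparison `mdim_∞(ρ') ≤ mdim_p(ρ)`. -/
lemma mdimRho_tame_le [TopologicalSpace X] [CompactSpace X] [Nonempty X] {d : ℕ → ℕ}
    (hdim : Tendsto d atTop atTop) (σ : ∀ i, Γ → Equiv.Perm (Fin (d i))) {p : ℝ≥0∞}
    (hp1 : 1 ≤ p) (hp : p ≠ ∞) {ρ : X → X → ℝ} (h : IsDynGen Γ ρ) {D : ℝ}
    (hD : ∀ x y, ρ x y ≤ D) {z : ℕ → X} (hd : DenseRange z) :
    mdimRho d σ ∞ (tame ρ z) ≤ mdimRho d σ p ρ := by
  by_contra hcon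
  push Not at hcon
  obtain ⟨t, ht1, ht⟩ := EReal.lt_iff_exists_real_btwn.1 hcon
  obtain ⟨t₂, ht2, ht3⟩ := EReal.lt_iff_exists_real_btwn.1 ht
  have htt : t < t₂ := by exact_mod_cast ht2
  refine absurd ht3 (not_lt.2 ?_)
  -- choice of the exponent
  set s : ℝ := (t₂ - t) / (2 * (|t| + 1)) with hsdef
  have hs : 0 < s := div_pos (by linarith) (by positivity)
  have hst : t * (1 + s) < t₂ := by
    have h1 : t * s ≤ |t| * s := by gcongr; exact le_abs_self t
    have h2 : (|t| + 1) * s = (t₂ - t) / 2 := by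
      rw [hsdef]; field_simp
    nlinarith
  obtain ⟨C, hC, hcells⟩ := exists_cells (z := z) h.symm h.tri (fun x y => h.nonneg x y) hD
  -- the two scales
  set e : ℝ → ℝ := fun a => Real.exp (-((Real.log (1 / a) - Real.log 4) / (1 + s))) with he
  have hlogt : Tendsto (fun a : ℝ => (Real.log (1 / a) - Real.log 4) / (1 + s)) (𝓝[>] 0) atTop := by
    have h1 : Tendsto (fun a : ℝ => Real.log (1 / a)) (𝓝[>] 0) atTop := by
      refine Real.tendsto_log_atTop.comp ?_
      exact (tendsto_inv_nhdsGT_zero (𝕜 := ℝ)).congr fun x => (one_div x).symm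
    exact (tendsto_atTop_add_const_right _ (-Real.log 4) h1).atTop_div_const (by linarith)
  have hetend : Tendsto e (𝓝[>] 0) (𝓝[>] 0) := by
    rw [tendsto_nhdsWithin_iff]
    refine ⟨Real.tendsto_exp_neg_atTop_nhds_zero.comp hlogt, Eventually.of_forall fun a => ?_⟩
    exact Real.exp_pos _
  have hfreq := frequently_lt_of_liminf_lt (f := 𝓝[>] (0:ℝ)) (by isBoundedDefault) ht1
  have hev : ∀ᶠ a : ℝ in 𝓝[>] 0, (⨅ (F : Finset Γ) (δ : ℝ) (_ : 0 < δ),
      limsup (fun i => ENNReal.log ((sepNum (rhoP p ρ) a (MapSet ρ F δ (σ i)) : ℕ∞) : ℝ≥0∞)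
        / (((d i : ℝ) * Real.log (1 / a) : ℝ) : EReal)) atTop) < (t : EReal) →
      (⨅ (F : Finset Γ) (δ : ℝ) (_ : 0 < δ),
      limsup (fun i => ENNReal.log
        ((sepNum (rhoP ∞ (tame ρ z)) (e a) (MapSet (tame ρ z) F δ (σ i)) : ℕ∞) : ℝ≥0∞)
        / (((d i : ℝ) * Real.log (1 / e a) : ℝ) : EReal)) atTop) ≤ (t₂ : EReal) := by
    have hu1 := hlogt.eventually (eventually_ge_atTop 1)
    have hu2 := hlogt.eventually (eventually_ineq C hs hst)
    filter_upwards [hu1, hu2, self_mem_nhdsWithin] with a hu1 hu2 ha0 hlt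
    have ha0' : 0 < a := ha0
    set u : ℝ := (Real.log (1 / a) - Real.log 4) / (1 + s) with hu
    have hea : e a = Real.exp (-u) := rfl
    rw [hea]
    have hs1 : 0 < 1 + s := by linarith
    have hla : Real.log (1 / a) = (1 + s) * u + Real.log 4 := by
      rw [hu]; field_simp; ring
    have hla0 : 0 < Real.log (1 / a) := by
      rw [hla]
      have := Real.log_nonneg (show (1:ℝ) ≤ 4 by norm_num)
      nlinarith
    have haexp : Real.exp (-(s * u)) * Real.exp (-u) / 4 = a := by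
      have h1 : Real.log a = -((1 + s) * u + Real.log 4) := by
        rw [← hla, one_div, Real.log_inv]; ring
      calc Real.exp (-(s * u)) * Real.exp (-u) / 4
          = Real.exp (-(s * u)) * Real.exp (-u) * Real.exp (-Real.log 4) := by
            rw [Real.exp_neg (Real.log 4), Real.exp_log (by norm_num)]; ring
        _ = Real.exp (-((1 + s) * u + Real.log 4)) := by
            rw [← Real.exp_add, ← Real.exp_add]; ring_nf
        _ = a := by rw [← h1, Real.exp_log ha0']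
    obtain ⟨F, hlt⟩ := iInf_lt_iff.1 hlt
    obtain ⟨δ, hlt⟩ := iInf_lt_iff.1 hlt
    obtain ⟨hδ, hlt⟩ := iInf_lt_iff.1 hlt
    obtain ⟨δ', hδ', hsub⟩ := exists_mapSet_subset h hD hd F hδ
    refine iInf_le_of_le F (iInf_le_of_le δ' (iInf_le_of_le hδ' ?_))
    refine limsup_le_of_le (by isBoundedDefault) ?_
    have hlt' := eventually_lt_of_limsup_lt hlt
    obtain ⟨L, hL, cell, hcell, hlogL⟩ := hcells u hu1
    filter_upwards [hlt', hdim.eventually_gt_atTop 0] with i hi hdi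
    have hdi' : (0:ℝ) < d i := by exact_mod_cast hdi
    -- upper bound for the `p`-packing number
    have hden : (0:EReal) < (((d i : ℝ) * Real.log (1 / a) : ℝ) : EReal) := by
      exact_mod_cast (by positivity)
    have hN : ((sepNum (rhoP p ρ) a (MapSet ρ F δ (σ i)) : ℕ∞) : ℝ≥0∞)
        ≤ ENNReal.ofReal (Real.exp (t * ((d i : ℝ) * Real.log (1 / a)))) := by
      rw [← ENNReal.log_le_log_iff, ENNReal.log_ofReal_of_pos (Real.exp_pos _), Real.log_exp]
      rw [EReal.div_lt_iff hden (EReal.coe_ne_top _)] at hi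
      have := hi.le
      rwa [← EReal.coe_mul] at this
    rw [sepNum_le_iff] at hN
    have hlogeu : Real.log (1 / Real.exp (-u)) = u := by
      rw [one_div, ← Real.exp_neg, neg_neg, Real.log_exp]
    rw [hlogeu]
    have hden2 : (0:EReal) < (((d i : ℝ) * u : ℝ) : EReal) := by
      exact_mod_cast (by positivity)
    rw [EReal.div_le_iff_le_mul hden2 (EReal.coe_ne_top _), ← EReal.coe_mul]
    have hη0 : 0 < Real.exp (-(s * u)) := Real.exp_pos _
    have hη1 : Real.exp (-(s * u)) ≤ 1 := Real.exp_le_one_iff.2 (by nlinarith)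
    have hfin : ((sepNum (rhoP ∞ (tame ρ z)) (Real.exp (-u))
        (MapSet (tame ρ z) F δ' (σ i)) : ℕ∞) : ℝ≥0∞)
        ≤ ENNReal.ofReal (Real.exp ((d i : ℝ) * u * t₂)) := by
      rw [sepNum_le_iff]
      intro T hTM hTsep
      have hpack := packing_le (ρ := tame ρ z) tame_self (fun x y => tame_nonneg x y) tame_symm
        (tame_tri h.symm h.tri) hp1 hp hdi (M := MapSet (tame ρ z) F δ' (σ i)) hη0 hη1
        (Real.exp_pos (-u)) hL cell hcell
        (K := Real.exp (t * ((d i : ℝ) * Real.log (1 / a)))) (fun S hSM hSsep => by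
          have h1 := hN S (hSM.trans (hsub (d i) hdi (σ i))) (fun x hx y hy hxy => by
            have h2 := hSsep x hx y hy hxy
            rw [haexp] at h2
            refine h2.trans ?_
            exact rhoP_mono (fun x y => tame_nonneg x y) (tame_le h.symm h.tri) hp x y)
          have h3 := ENNReal.toReal_mono ENNReal.ofReal_ne_top h1
          rw [ENNReal.toReal_ofReal (Real.exp_pos _).le] at h3
          simpa using h3) T hTM hTsep
      rw [← ENNReal.ofReal_natCast]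
      refine ENNReal.ofReal_le_ofReal (hpack.trans ?_)
      rw [← Real.exp_add]
      apply Real.exp_le_exp.2
      have h5 : Real.log (1 / Real.exp (-(s * u))) = s * u := by
        rw [one_div, ← Real.exp_neg, neg_neg, Real.log_exp]
      rw [h5, hla]
      have h6 : Real.exp (-(s * u)) * (1 + Real.log L + s * u)
          ≤ Real.exp (-(s * u)) * (1 + C * u ^ 2 + s * u) := by gcongr
      calc t * ((d i : ℝ) * ((1 + s) * u + Real.log 4))
            + (d i : ℝ) * (Real.exp (-(s * u)) * (1 + Real.log L + s * u))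
          ≤ (d i : ℝ) * (t * ((1 + s) * u + Real.log 4)
            + Real.exp (-(s * u)) * (1 + C * u ^ 2 + s * u)) := by
            nlinarith
        _ ≤ (d i : ℝ) * (t₂ * u) := by gcongr
        _ = (d i : ℝ) * u * t₂ := by ring
    calc ENNReal.log _ ≤ ENNReal.log (ENNReal.ofReal (Real.exp ((d i : ℝ) * u * t₂))) :=
          ENNReal.log_monotone hfin
      _ = _ := by rw [ENNReal.log_ofReal_of_pos (Real.exp_pos _), Real.log_exp]
  have hfreq2 := hetend.frequently (p := fun ε => (⨅ (F : Finset Γ) (δ : ℝ) (_ : 0 < δ),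
      limsup (fun i => ENNReal.log
        ((sepNum (rhoP ∞ (tame ρ z)) ε (MapSet (tame ρ z) F δ (σ i)) : ℕ∞) : ℝ≥0∞)
        / (((d i : ℝ) * Real.log (1 / ε) : ℝ) : EReal)) atTop) ≤ (t₂ : EReal))
    (hfreq.mp (hev.mono fun a ha hb => ha hb))
  exact liminf_le_of_frequently_le hfreq2 (by isBoundedDefault)

/-- **Main theorem.** For a countable sofic group `Γ` with sofic approximation `Σ`, acting by
homeomorphisms on a compact metrizable space `X`, and every `1 ≤ p ≤ ∞`, the `p`-metric mean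
dimension equals the sofic metric mean dimension (`p = ∞`). -/
theorem result (Γ : Type*) [Group Γ] [Countable Γ] (d : ℕ → ℕ)
    (σ : ∀ i, Γ → Equiv.Perm (Fin (d i))) (hσ : IsSoficApprox d σ)
    (X : Type*) [TopologicalSpace X] [CompactSpace X] [TopologicalSpace.MetrizableSpace X]
    [MulAction Γ X] [ContinuousConstSMul Γ X] (p : ℝ≥0∞) (hp : 1 ≤ p) :
    metricMeanDim Γ X d σ p = metricMeanDim Γ X d σ ∞ := by
  by_cases hptop : p = ∞
  · rw [hptop]
  refine le_antisymm ?_ ?_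
  · refine iInf_mono fun ρ => iInf_mono fun h => ?_
    exact mdimRho_mono hσ.dim σ fun i hi φ ψ => rhoP_le_top (fun x y => h.nonneg x y) hp hi φ ψ
  · refine le_iInf fun ρ => le_iInf fun h => ?_
    rcases isEmpty_or_nonempty X with hX | hX
    · refine (iInf₂_le ρ h).trans (mdimRho_mono hσ.dim σ fun i hi φ ψ => ?_)
      exact (hX.false (φ ⟨0, hi⟩)).elim
    · let _ := TopologicalSpace.metrizableSpaceMetric X
      obtain ⟨D, hD⟩ : ∃ D, ∀ x y, ρ x y ≤ D := by
        obtain ⟨D, hD⟩ := (isCompact_univ.image h.cont).bddAbove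
        exact ⟨D, fun x y => hD ⟨(x, y), trivial, rfl⟩⟩
      refine (iInf₂_le (tame ρ (TopologicalSpace.denseSeq X))
        (isDynGen_tame h hD (TopologicalSpace.denseRange_denseSeq X))).trans ?_
      exact mdimRho_tame_le hσ.dim σ hp hptop h hD (TopologicalSpace.denseRange_denseSeq X)

end main

end Pool.Agent.Results.MP_9d0111_an.PMetricEqualsMetric
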